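import Mathlib

set_option autoImplicit false

namespace Pool.Agent.Results.MP_231ef3_gt.Plank

open Set Ordinal Topology

/-- upper semi-continuous map with non-empty closed values -/
def Usc {Y X : Type 1} [TopologicalSpace Y] [TopologicalSpace X] (F : Y → Set X) : Prop :=
  (∀ y, (F y).Nonempty ∧ IsClosed (F y)) ∧ ∀ U, IsOpen U → IsOpen {y | F y ⊆ U}

/-- set-self-Tietze spaces -/
def SetSelfTietze (X : Type 1) [TopologicalSpace X] : Prop :=
  ∀ A : Set X, IsClosed A → ∀ f : A → Set X, Usc f → ∃ F : X → Set X, Usc F ∧ ∀ a : A, F a = f a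

lemma near {γ : Ordinal.{0}} (W : Set (Iic γ)) (hW : IsOpen W) (h0 : 0 < γ)
    (h : (⟨γ, le_refl γ⟩ : Iic γ) ∈ W) : ∃ a < γ, ∀ b : Iic γ, a < b.1 → b ∈ W := by
  obtain ⟨V, hV, rfl⟩ := isOpen_induced_iff.1 hW
  obtain ⟨a, ha, h2⟩ := exists_Ioc_subset_of_mem_nhds (hV.mem_nhds h) ⟨0, h0⟩
  exact ⟨a, ha, fun b hb => h2 ⟨hb, b.2⟩⟩

theorem result : ¬ SetSelfTietze (Iic (omega.{0} 1) × Iic (omega0.{0})) := by
  intro H
  have w0 := omega0_pos
  have w1 : (0 : Ordinal.{0}) < omega 1 := omega_pos 1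
  set p : Iic (omega.{0} 1) × Iic (omega0.{0}) := (⟨0, w1.le⟩, ⟨0, w0.le⟩) with hp
  set q : Iic (omega.{0} 1) × Iic (omega0.{0}) := (⟨0, w1.le⟩, ⟨ω, mem_Iic.2 le_rfl⟩) with hq
  have c1 : Continuous fun x : Iic (omega.{0} 1) × Iic (omega0.{0}) => x.1.1 := by fun_prop
  have c2 : Continuous fun x : Iic (omega.{0} 1) × Iic (omega0.{0}) => x.2.1 := by fun_prop
  have k1 := isClosed_eq c1 (continuous_const (y := omega 1))
  have k2 := isClosed_eq c2 (continuous_const (y := ω))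
  obtain ⟨F, ⟨hF1, hF2⟩, hF3⟩ := H ({x | x.1.1 = omega 1} ∪ {x | x.2.1 = ω}) (k1.union k2)
    (fun a => {y | (y = p ∧ a.1.1.1 = omega 1) ∨ (y = q ∧ a.1.2.1 = ω)}) (by
      refine ⟨fun a => ⟨?_, ?_⟩, fun U _ => ?_⟩
      · rcases a.2 with h | h
        · exact ⟨p, Or.inl ⟨rfl, h⟩⟩
        · exact ⟨q, Or.inr ⟨rfl, h⟩⟩
      · refine ((toFinite {p, q}).subset ?_).isClosed
        rintro y (h | h) <;> simp [h.1]
      · have : ∀ (y : Iic (omega.{0} 1) × Iic (omega0.{0})) (K), IsClosed K → IsOpen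
            {a : ↥({x : Iic (omega.{0} 1) × Iic (omega0.{0}) | x.1.1 = omega 1}
              ∪ {x | x.2.1 = ω}) | a.1 ∈ K → y ∈ U} := by
          intro y K hK
          by_cases hy : y ∈ U
          · simp [hy]
          · simp only [hy, imp_false]
            exact (hK.preimage continuous_subtype_val).isOpen_compl
        convert (this p _ k1).inter (this q _ k2) using 1
        ext a
        simp only [subset_def, mem_setOf_eq, mem_inter_iff]
        constructor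
        · exact fun h => ⟨fun h' => h p (Or.inl ⟨rfl, h'⟩), fun h' => h q (Or.inr ⟨rfl, h'⟩)⟩
        · rintro h y (⟨rfl, h'⟩ | ⟨rfl, h'⟩)
          · exact h.1 h'
          · exact h.2 h')
  have o1 := hF2 _ ((isOpen_Iio (a := (1 : Ordinal.{0}))).preimage c2)
  have o2 := hF2 _ ((isOpen_Ioi (a := (0 : Ordinal.{0}))).preimage c2)
  have h1 := fun n : ℕ => near _ (o1.preimage
    (Continuous.prodMk_left (⟨n, (natCast_lt_omega0 n).le⟩ : Iic (omega0.{0})))) w1 (by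
      have := hF3 ⟨(⟨_, mem_Iic.2 le_rfl⟩, ⟨n, (natCast_lt_omega0 n).le⟩), Or.inl rfl⟩
      simp only [mem_preimage, mem_setOf_eq] at this ⊢
      rw [this]
      rintro y (⟨rfl, -⟩ | ⟨-, h⟩)
      · simp [hp]
      · exact absurd h (natCast_lt_omega0 n).ne)
  choose a ha1 ha2 using h1
  have hs : (⨆ n, a n) + 1 < omega 1 :=
    (Cardinal.isSuccLimit_omega 1).add_one_lt (Ordinal.iSup_lt_omega_one ha1)
  obtain ⟨m, hm, hm2⟩ := near _ (o2.preimage
    (Continuous.prodMk_right (⟨_, hs.le⟩ : Iic (omega.{0} 1)))) w0 (by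
      have := hF3 ⟨(⟨_, hs.le⟩, ⟨_, mem_Iic.2 le_rfl⟩), Or.inr rfl⟩
      simp only [mem_preimage, mem_setOf_eq] at this ⊢
      rw [this]
      rintro y (⟨-, h⟩ | ⟨rfl, -⟩)
      · exact absurd h hs.ne
      · simpa [hq] using w0)
  obtain ⟨n, rfl⟩ := lt_omega0.1 hm
  have b1 := hm2 ⟨(n + 1 : ℕ), (natCast_lt_omega0 _).le⟩ (by simp)
  have b2 := ha2 (n + 1) ⟨_, hs.le⟩ ((Ordinal.le_iSup a (n + 1)).trans_lt (lt_add_one _))
  obtain ⟨y, hy⟩ := (hF1 (⟨_, hs.le⟩, ⟨(n + 1 : ℕ), (natCast_lt_omega0 _).le⟩)).1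
  have b3 : y.2.1 < 1 := b2 hy
  have b4 : 0 < y.2.1 := b1 hy
  exact b4.ne' (Order.lt_one_iff.1 b3)

end Pool.Agent.Results.MP_231ef3_gt.Plank
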